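import Pool.Agent.H36.TU.VB
import Pool.Agent.H83.TU.NV

/-!
# Theorem U, the volume bound (3): `vol_le`

`vol D ≤ C * x ^ 2 * y` for `D = b 0 ^ m 0 * b 1 ^ m 1`, `x`, `y` the coordinates of the class of `D`.
-/

set_option autoImplicit false

open Filter Topology

namespace Pool.Agent.H36.TU

open Pool.Agent.H54.RV Pool.Agent.H83.TU

variable {k K : Type} [Field k] [Field K] [Algebra k K] {X : Mod k K}

/-- there is a prime divisor -/
theorem exists_any (h : Hyp X) : Nonempty (PDiv X) := by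
  by_contra hno
  have hX := h.var
  have hall : ∀ x, X.O x = ⊤ := by
    intro x
    by_contra hx
    have h1 : ∃ a ∈ X.O x, a ≠ 0 ∧ a⁻¹ ∉ X.O x := by
      by_contra hcon
      push Not at hcon
      apply hx
      rw [eq_top_iff]
      intro a _
      obtain ⟨U, hU, hxU⟩ := hX.chart x
      obtain ⟨s, hs, hs0, has⟩ := gen_frac hX h.gen U hU ⟨x, hxU⟩ a
      have h1 : s ∈ X.O x := (mem_sec U s).1 hs x hxU
      have h2 : a * s ∈ X.O x := (mem_sec U _).1 has x hxU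
      have h3 := hcon s h1 hs0
      have h4 : a = a * s * s⁻¹ := by
        field_simp
      rw [h4]
      exact (X.O x).mul_mem h2 h3
    obtain ⟨a, ha, ha0, hai⟩ := h1
    haveI := h.ufd x
    have hne : (⟨a, ha⟩ : X.O x) ≠ 0 := fun hh => ha0 (congrArg Subtype.val hh)
    have hnu : ¬ IsUnit (⟨a, ha⟩ : X.O x) := by
      rw [un_iff ha]
      rintro ⟨-, -, h3⟩
      exact hai h3
    obtain ⟨q, hq, -⟩ := WfDvdMonoid.exists_irreducible_factor hnu hne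
    have hp : Prime q := UniqueFactorizationMonoid.irreducible_iff_prime.1 hq
    obtain ⟨P, -⟩ := pdiv_of_prime h x q q.2 hp
    exact hno ⟨P⟩
  obtain ⟨x⟩ := hX.ne
  obtain ⟨U, hU, hxU⟩ := hX.chart x
  have htop : X.sec U = ⊤ := by
    rw [eq_top_iff]
    intro a _
    rw [mem_sec]
    intro y _
    rw [hall]
    exact Algebra.mem_top
  have hfg := hX.fg U hU ⟨x, hxU⟩
  rw [htop] at hfg
  haveI hft : Algebra.FiniteType k K := ⟨hfg⟩
  haveI hfin : Module.Finite k K := finite_of_finite_type_of_isJacobsonRing k K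
  haveI halg : Algebra.IsAlgebraic k K := inferInstance
  have h0 : Algebra.trdeg k K = 0 := trdeg_eq_zero
  rw [h.tr] at h0
  norm_num at h0

/-- the data of the bound exist -/
theorem exists_bd (h : Hyp X) (hG : GF X) (hU : UN X) (b : Fin 2 → Cart X) :
    ∃ (P : PDiv X) (S A : Cart X) (C : ℕ), BD P S A b C ∧ ¬ Effective S⁻¹ := by
  obtain ⟨P⟩ := exists_any h
  obtain ⟨S, h1, h2, h3⟩ := pdiv_cart h P
  obtain ⟨A, hA⟩ := h.amp
  have hun : ∀ M : Cart X, ∃ m₀ : ℕ, ∀ m ≥ m₀, UnAt P.η (A ^ m * M) := by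
    intro M
    obtain ⟨m₀, hm⟩ := hU A M {P.η} hA
    refine ⟨m₀, fun m hmm => ?_⟩
    obtain ⟨s, hs, hx⟩ := hm m hmm
    exact ⟨s, hs, hx P.η (Finset.mem_singleton_self _)⟩
  choose f hf using hun
  obtain ⟨m, hm⟩ : ∃ m, m = f 1 + f S + f S⁻¹ + f (b 0) + f (b 1) + f (b 0)⁻¹ + f (b 1)⁻¹ := ⟨_, rfl⟩
  obtain ⟨C, hC⟩ := hG.2 (A ^ m)
  refine ⟨P, S, A ^ m, C, ⟨⟨h1, h2, h3⟩, fun E => hG.1 E 1, ?_, ?_, ?_, ?_, ?_, hC⟩, ?_⟩
  · have := hf 1 m (by omega)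
    rwa [mul_one] at this
  · exact hf S m (by omega)
  · exact hf S⁻¹ m (by omega)
  · intro i
    fin_cases i
    · exact hf (b 0) m (by omega)
    · exact hf (b 1) m (by omega)
  · intro i
    fin_cases i
    · exact hf (b 0)⁻¹ m (by omega)
    · exact hf (b 1)⁻¹ m (by omega)
  · intro h4
    have h5 : (S.eq P.η)⁻¹ ∈ X.O P.η := h4 P.η
    have h6 := (ord_nonneg P.p _ (inv_ne_zero (S.ne _))).2 ((P.mem _).1 h5)
    rw [ord_inv, h2] at h6
    omega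

variable {ν : Cart X →* Multiplicative (Fin 2 → ℤ)}

theorem cv_bas {b : Fin 2 → Cart X} (hb : ∀ i, cv ν (b i) = Pi.single i 1) (m : Fin 2 → ℤ) :
    cv ν (b 0 ^ m 0 * b 1 ^ m 1) = fun i => (m i : ℝ) := by
  rw [cv_mul, cv_zpow, cv_zpow, hb, hb]
  funext i
  fin_cases i <;> simp

/-- if `E` is on the wrong side then it has no sections -/
theorem hh_zero (hν : Num ν) {p : Fin 2 → ℝ} {x y : (Fin 2 → ℝ) →ₗ[ℝ] ℝ} (hc : Coords ν p x y)
    (E : Cart X) (hE : y (cv ν E) < 0) : hh E = 0 := by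
  have h1 : secL E 1 = ⊥ := by
    rw [eq_bot_iff]
    intro s hs
    rw [Submodule.mem_bot]
    by_contra h0
    have h2 : Effective (prin X s h0 * E) := by
      intro z
      have h3 : s * E.eq z ^ 1 ∈ X.O z := hs z
      rw [pow_one] at h3
      exact h3
    have h4 := hc.yeff _ (effV_cv ν _ h2)
    rw [cv_mul, cv_prin hν, zero_add] at h4
    linarith
  unfold hh
  rw [h1, finrank_bot]
  rfl

theorem vol_bound (hν : Num ν) {p : Fin 2 → ℝ} {x y : (Fin 2 → ℝ) →ₗ[ℝ] ℝ} (hc : Coords ν p x y)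
    {P : PDiv X} {S A : Cart X} {b : Fin 2 → Cart X} {C : ℕ} (h : BD P S A b C)
    (hS : ¬ Effective S⁻¹) (m : Fin 2 → ℤ) (hm : 1 ≤ sz m)
    (hy : 0 < y (cv ν (b 0 ^ m 0 * b 1 ^ m 1))) :
    vol (b 0 ^ m 0 * b 1 ^ m 1) ≤ 8 * C * (y (cv ν (b 0 ^ m 0 * b 1 ^ m 1)) / y (cv ν S)) *
      (sz m + y (cv ν (b 0 ^ m 0 * b 1 ^ m 1)) / y (cv ν S)) ^ 2 := by
  obtain ⟨D, hD⟩ : ∃ D : Cart X, D = b 0 ^ m 0 * b 1 ^ m 1 := ⟨_, rfl⟩
  rw [← hD] at hy ⊢
  have hyS : 0 < y (cv ν S) := hc.ypos S h.ps.eff hS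
  obtain ⟨r, hr⟩ : ∃ r, r = y (cv ν D) / y (cv ν S) := ⟨_, rfl⟩
  have hr0 : 0 < r := by rw [hr]; exact div_pos hy hyS
  rw [← hr]
  have hryS : r * y (cv ν S) = y (cv ν D) := by
    rw [hr]
    exact div_mul_cancel₀ _ hyS.ne'
  -- the bound for `h0`
  have hb : ∀ n : ℕ, 1 ≤ n → (h0 D n : ℝ) / (n : ℝ) ^ 3 ≤
      8 * C * (r + 1 / (n : ℝ)) * (sz m + (r + 1 / (n : ℝ))) ^ 2 := by
    intro n hn
    have hn0 : (0 : ℝ) < n := by exact_mod_cast hn
    obtain ⟨I, hI⟩ : ∃ I : ℕ, I = ⌊(n : ℝ) * r⌋₊ + 1 := ⟨_, rfl⟩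
    have hI1 : (I : ℝ) ≤ n * r + 1 := by
      rw [hI]
      push_cast
      have := Nat.floor_le (by positivity : (0 : ℝ) ≤ n * r)
      linarith
    have hI2 : (n : ℝ) * r < I := by
      rw [hI]
      push_cast
      exact Nat.lt_floor_add_one _
    have h1 : hh ((b 0 ^ m 0 * b 1 ^ m 1) ^ n * S⁻¹ ^ I) = 0 := by
      refine hh_zero hν hc _ ?_
      rw [← hD, cv_mul, cv_pow, cv_pow, cv_inv, map_add, map_smul, map_smul, map_neg, smul_eq_mul,
        smul_eq_mul, ← hryS]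
      have h2 : (n : ℝ) * (r * y (cv ν S)) < I * y (cv ν S) := by
        rw [← mul_assoc]
        exact mul_lt_mul_of_pos_right hI2 hyS
      linarith
    have h2 := h0_le h m hm n I hn h1
    rw [← hD] at h2
    have h3 : (h0 D n : ℝ) ≤ (I : ℝ) * (8 * (C : ℝ) * ((n : ℝ) * sz m + I) ^ 2) := by
      have h4 : ((h0 D n : ℤ) : ℝ) ≤
          (((I : ℤ) * (8 * (C : ℤ) * ((n * sz m + I : ℕ) : ℤ) ^ 2) : ℤ) : ℝ) := by
        exact_mod_cast h2
      push_cast at h4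
      exact h4
    have hC0 : (0 : ℝ) ≤ C := Nat.cast_nonneg _
    have hs0 : (0 : ℝ) ≤ sz m := Nat.cast_nonneg _
    have hI0 : (0 : ℝ) ≤ I := Nat.cast_nonneg _
    rw [div_le_iff₀ (by positivity)]
    refine h3.trans ?_
    have h5 : (n : ℝ) * sz m + I ≤ n * sz m + (n * r + 1) := by linarith
    have h6 : ((n : ℝ) * sz m + I) ^ 2 ≤ (n * sz m + (n * r + 1)) ^ 2 :=
      pow_le_pow_left₀ (by positivity) h5 2
    calc (I : ℝ) * (8 * (C : ℝ) * ((n : ℝ) * sz m + I) ^ 2) ≤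
        (n * r + 1) * (8 * (C : ℝ) * (n * sz m + (n * r + 1)) ^ 2) := by
          refine mul_le_mul hI1 ?_ (by positivity) (by positivity)
          exact mul_le_mul_of_nonneg_left h6 (by positivity)
      _ = 8 * C * (r + 1 / (n : ℝ)) * (sz m + (r + 1 / (n : ℝ))) ^ 2 * (n : ℝ) ^ 3 := by
          field_simp
  -- the limit
  have h1n : Tendsto (fun n : ℕ => 1 / (n : ℝ)) atTop (𝓝 0) := tendsto_one_div_atTop_nhds_zero_nat
  have h2n : Tendsto (fun n : ℕ => r + 1 / (n : ℝ)) atTop (𝓝 (r + 0)) := tendsto_const_nhds.add h1n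
  rw [add_zero] at h2n
  have hlim : Tendsto (fun n : ℕ => 8 * C * (r + 1 / (n : ℝ)) * (sz m + (r + 1 / (n : ℝ))) ^ 2) atTop
      (𝓝 (8 * C * r * (sz m + r) ^ 2)) :=
    (h2n.const_mul (8 * (C : ℝ))).mul ((tendsto_const_nhds.add h2n).pow 2)
  unfold vol
  rw [← hlim.limsup_eq]
  refine limsup_le_limsup ?_ ?_ hlim.isBoundedUnder_le
  · filter_upwards [eventually_ge_atTop 1] with n hn
    exact hb n hn
  · exact isCoboundedUnder_le_of_le atTop (x := 0) fun n => by positivity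

theorem vol_le (h : Hyp X) (hν : Num ν) (hG : GF X) (hU : UN X) {p : Fin 2 → ℝ}
    {x y : (Fin 2 → ℝ) →ₗ[ℝ] ℝ} (hc : Coords ν p x y) (b : Fin 2 → Cart X)
    (hb : ∀ i, cv ν (b i) = Pi.single i 1) :
    ∃ C : ℝ, 0 < C ∧ ∀ m : Fin 2 → ℤ, 0 < y (cv ν (b 0 ^ m 0 * b 1 ^ m 1)) →
      y (cv ν (b 0 ^ m 0 * b 1 ^ m 1)) ≤ x (cv ν (b 0 ^ m 0 * b 1 ^ m 1)) →
      vol (b 0 ^ m 0 * b 1 ^ m 1) ≤
        C * x (cv ν (b 0 ^ m 0 * b 1 ^ m 1)) ^ 2 * y (cv ν (b 0 ^ m 0 * b 1 ^ m 1)) := by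
  obtain ⟨P, S, A, C, hBD, hS⟩ := exists_bd h hG hU b
  have hyS : 0 < y (cv ν S) := hc.ypos S hBD.ps.eff hS
  -- the coordinates bound the norm
  have hker : LinearMap.ker (x.prod y) = ⊥ := by
    rw [LinearMap.ker_eq_bot']
    intro v hv
    rw [LinearMap.prod_apply, Function.prod_apply, Prod.mk_eq_zero] at hv
    exact hc.inj v hv.1 hv.2
  obtain ⟨κ, hκ, hanti⟩ := (x.prod y).exists_antilipschitzWith hker
  have hnorm : ∀ v : Fin 2 → ℝ, ‖v‖ ≤ κ * ‖(x v, y v)‖ := by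
    intro v
    have h1 := hanti.le_mul_dist v 0
    rw [dist_zero_right, map_zero, dist_zero_right] at h1
    exact h1
  refine ⟨8 * (C + 1) / y (cv ν S) * (2 * κ + 1 / y (cv ν S)) ^ 2, ?_, fun m hy hyx => ?_⟩
  · have hκ' : (0 : ℝ) < κ := hκ
    positivity
  obtain ⟨D, hD⟩ : ∃ D : Cart X, D = b 0 ^ m 0 * b 1 ^ m 1 := ⟨_, rfl⟩
  have hcv : cv ν D = fun i => (m i : ℝ) := by rw [hD]; exact cv_bas hb m
  have hx : 0 < x (cv ν D) := by rw [hD]; linarith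
  have hm : 1 ≤ sz m := by
    by_contra hlt
    have h0 : m = 0 := by
      have h1 : sz m = 0 := by omega
      unfold sz at h1
      funext i
      fin_cases i
      · show m 0 = 0
        omega
      · show m 1 = 0
        omega
    rw [hcv, h0] at hx
    have h2 : (fun i : Fin 2 => (((0 : Fin 2 → ℤ) i : ℤ) : ℝ)) = 0 := by
      funext i
      simp
    rw [h2, map_zero] at hx
    exact lt_irrefl _ hx
  have h1 := vol_bound hν hc hBD hS m hm hy
  rw [← hD] at hy hyx h1 ⊢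
  refine h1.trans ?_
  have hκ' : (0 : ℝ) < κ := hκ
  -- the size of the exponents
  have hsz : (sz m : ℝ) ≤ 2 * κ * x (cv ν D) := by
    have h2 : ‖cv ν D‖ ≤ κ * x (cv ν D) := by
      refine (hnorm _).trans ?_
      refine mul_le_mul_of_nonneg_left ?_ hκ'.le
      rw [Prod.norm_def]
      refine max_le ?_ ?_
      · show ‖x (cv ν D)‖ ≤ _
        rw [Real.norm_eq_abs, abs_of_pos hx]
      · show ‖y (cv ν D)‖ ≤ _
        rw [Real.norm_eq_abs, abs_of_pos hy]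
        exact hyx
    have h3 : ∀ i, ((m i).natAbs : ℝ) ≤ ‖cv ν D‖ := by
      intro i
      have h4 := norm_le_pi_norm (cv ν D) i
      rw [hcv] at h4 ⊢
      rw [Real.norm_eq_abs] at h4
      rw [Nat.cast_natAbs, Int.cast_abs]
      exact h4
    have h4 : (sz m : ℝ) = ((m 0).natAbs : ℝ) + ((m 1).natAbs : ℝ) := by
      unfold sz
      push_cast
      ring
    rw [h4]
    have := h3 0
    have := h3 1
    linarith
  have hr : y (cv ν D) / y (cv ν S) ≤ 1 / y (cv ν S) * x (cv ν D) := by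
    rw [div_le_iff₀ hyS]
    calc y (cv ν D) ≤ x (cv ν D) := hyx
      _ = 1 / y (cv ν S) * x (cv ν D) * y (cv ν S) := by
        field_simp
  have hr0 : 0 < y (cv ν D) / y (cv ν S) := div_pos hy hyS
  have hsum : (sz m : ℝ) + y (cv ν D) / y (cv ν S) ≤ (2 * κ + 1 / y (cv ν S)) * x (cv ν D) := by
    linarith
  have hsq : ((sz m : ℝ) + y (cv ν D) / y (cv ν S)) ^ 2 ≤
      ((2 * κ + 1 / y (cv ν S)) * x (cv ν D)) ^ 2 :=
    pow_le_pow_left₀ (by positivity) hsum 2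
  have hC0 : (0 : ℝ) ≤ C := Nat.cast_nonneg _
  calc 8 * (C : ℝ) * (y (cv ν D) / y (cv ν S)) * (sz m + y (cv ν D) / y (cv ν S)) ^ 2 ≤
      8 * ((C : ℝ) + 1) * (y (cv ν D) / y (cv ν S)) *
        ((2 * κ + 1 / y (cv ν S)) * x (cv ν D)) ^ 2 := by
        refine mul_le_mul ?_ hsq (by positivity) (by positivity)
        refine mul_le_mul_of_nonneg_right ?_ hr0.le
        linarith
    _ = 8 * (C + 1) / y (cv ν S) * (2 * κ + 1 / y (cv ν S)) ^ 2 * x (cv ν D) ^ 2 * y (cv ν D) := by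
        ring

end Pool.Agent.H36.TU
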