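import Pool.Agent.H83.TU.NV
import Pool.Agent.H54.RV.B10

/-!
# Theorem U: the ample cone in the plane is open; `AC ν`, `BG ν`

`ball_abs`: a cone `F` over a subfield of `ℝ` which contains `m a ± e_i` contains `q a + u` for small `u`.
`QA ν v`: a positive multiple of `v` is the class of an ample divisor; `QE ν v`: the same for effective divisors.
-/

set_option autoImplicit false

open Filter Topology

namespace Pool.Agent.H36.TU

open Pool.Agent.H54.RV Pool.Agent.H83.TU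

section abs

variable {S : Subfield ℝ} {F : (Fin 2 → ℝ) → Prop}

theorem fn_add (hadd : ∀ v w, F v → F w → F (v + w)) {v w : Fin 2 → ℝ} (hv : F v)
    (hw : w = 0 ∨ F w) : F (v + w) := by
  rcases hw with h | h
  · rw [h, add_zero]
    exact hv
  · exact hadd v w hv h

theorem fn_one (hadd : ∀ v w, F v → F w → F (v + w)) (hsm : ∀ c ∈ S, 0 < c → ∀ v, F v → F (c • v))
    {a e : Fin 2 → ℝ} (ha : F a) {m m' M : ℕ} (hm : F ((m : ℝ) • a + e)) (hm' : F ((m' : ℝ) • a - e))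
    (h1 : m ≤ M) (h2 : m' ≤ M) (t : ℝ) (ht : t ∈ S) :
    t • e + (|t| * M) • a = 0 ∨ F (t • e + (|t| * M) • a) := by
  rcases lt_trichotomy t 0 with h | h | h
  · right
    rw [abs_of_neg h]
    have e1 : t • e + (-t * (M : ℝ)) • a = (-t) • ((m' : ℝ) • a - e) + (-t * ((M - m' : ℕ) : ℝ)) • a := by
      rw [Nat.cast_sub h2]
      module
    rw [e1]
    refine fn_add hadd (hsm _ (S.neg_mem ht) (by linarith) _ hm') ?_
    rcases Nat.eq_zero_or_pos (M - m') with h3 | h3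
    · left
      rw [h3, Nat.cast_zero, mul_zero, zero_smul]
    · right
      refine hsm _ (S.mul_mem (S.neg_mem ht) (natCast_mem S _)) ?_ _ ha
      exact mul_pos (by linarith) (by exact_mod_cast h3)
  · left
    rw [h, abs_zero, zero_mul, zero_smul, zero_smul, add_zero]
  · right
    rw [abs_of_pos h]
    have e1 : t • e + (t * (M : ℝ)) • a = t • ((m : ℝ) • a + e) + (t * ((M - m : ℕ) : ℝ)) • a := by
      rw [Nat.cast_sub h1]
      module
    rw [e1]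
    refine fn_add hadd (hsm _ ht h _ hm) ?_
    rcases Nat.eq_zero_or_pos (M - m) with h3 | h3
    · left
      rw [h3, Nat.cast_zero, mul_zero, zero_smul]
    · right
      refine hsm _ (S.mul_mem ht (natCast_mem S _)) ?_ _ ha
      exact mul_pos h (by exact_mod_cast h3)

theorem ball_abs (hadd : ∀ v w, F v → F w → F (v + w))
    (hsm : ∀ c ∈ S, 0 < c → ∀ v, F v → F (c • v)) {a : Fin 2 → ℝ} (ha : F a) {m m' : Fin 2 → ℕ} {M : ℕ}
    (hm : ∀ i, F ((m i : ℝ) • a + Pi.single i 1)) (hm' : ∀ i, F ((m' i : ℝ) • a - Pi.single i 1))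
    (h1 : ∀ i, m i ≤ M) (h2 : ∀ i, m' i ≤ M) (q : ℝ) (hq : q ∈ S) (hq0 : 0 < q) (u : Fin 2 → ℝ)
    (hu : ∀ i, u i ∈ S) (hs : ∀ i, |u i| * (4 * (M + 1)) ≤ q) : F (q • a + u) := by
  have habs : ∀ t ∈ S, |t| ∈ S := by
    intro t ht
    rcases abs_choice t with h | h
    · rw [h]; exact ht
    · rw [h]; exact S.neg_mem ht
  have e1 : q • a + u = (q - (|u 0| * M + |u 1| * M)) • a +
      (u 0 • (Pi.single 0 1 : Fin 2 → ℝ) + (|u 0| * M) • a) +
      (u 1 • (Pi.single 1 1 : Fin 2 → ℝ) + (|u 1| * M) • a) := by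
    have e2 : u = u 0 • (Pi.single 0 1 : Fin 2 → ℝ) + u 1 • (Pi.single 1 1 : Fin 2 → ℝ) := by
      funext i
      fin_cases i <;> simp
    calc q • a + u = q • a + (u 0 • (Pi.single 0 1 : Fin 2 → ℝ) + u 1 • (Pi.single 1 1 : Fin 2 → ℝ)) := by
          rw [← e2]
      _ = _ := by module
  rw [e1]
  refine fn_add hadd (fn_add hadd (hsm _ ?_ ?_ _ ha) ?_) ?_
  · exact S.sub_mem hq (S.add_mem (S.mul_mem (habs _ (hu 0)) (natCast_mem S _))
      (S.mul_mem (habs _ (hu 1)) (natCast_mem S _)))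
  · have h3 := hs 0
    have h4 := hs 1
    have h5 : 0 ≤ |u 0| := abs_nonneg _
    have h6 : 0 ≤ |u 1| := abs_nonneg _
    have hM : (0 : ℝ) ≤ M := Nat.cast_nonneg _
    have h7 : 0 ≤ |u 0| * M := mul_nonneg h5 hM
    have h8 : 0 ≤ |u 1| * M := mul_nonneg h6 hM
    linarith
  · exact fn_one hadd hsm ha (hm 0) (hm' 0) (h1 0) (h2 0) _ (hu 0)
  · exact fn_one hadd hsm ha (hm 1) (hm' 1) (h1 1) (h2 1) _ (hu 1)

end abs

variable {k K : Type} [Field k] [Field K] [Algebra k K] {X : Mod k K}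
  {ν : Cart X →* Multiplicative (Fin 2 → ℤ)}

theorem exists_bas (hν : Num ν) : ∃ b : Fin 2 → Cart X, ∀ i, cv ν (b i) = Pi.single i 1 := by
  have h1 : ∀ i : Fin 2, ∃ D : Cart X, cv ν D = Pi.single i 1 := by
    intro i
    obtain ⟨D, hD⟩ := cv_surj hν (Pi.single i 1)
    refine ⟨D, ?_⟩
    rw [hD]
    funext j
    by_cases h : j = i
    · subst h
      simp
    · simp [Pi.single_apply, h]
  choose b hb using h1
  exact ⟨b, hb⟩

/-- the constants of an ample divisor -/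
theorem exists_mm (hX : IsVar X) (hν : Num ν) (A : Cart X) (hA : Ample A) :
    ∃ (m m' : Fin 2 → ℕ) (M : ℕ) (B B' : Fin 2 → Cart X), (∀ i, Ample (B i)) ∧ (∀ i, Ample (B' i)) ∧
      (∀ i, cv ν (B i) = (m i : ℝ) • cv ν A + Pi.single i 1) ∧
      (∀ i, cv ν (B' i) = (m' i : ℝ) • cv ν A - Pi.single i 1) ∧ (∀ i, m i ≤ M) ∧ ∀ i, m' i ≤ M := by
  obtain ⟨b, hb⟩ := exists_bas hν
  have h1 := fun i => ample_add hX A (b i) hA
  have h2 := fun i => ample_add hX A (b i)⁻¹ hA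
  choose m hm1 hm2 using h1
  choose m' hm1' hm2' using h2
  refine ⟨m, m', m 0 + m 1 + m' 0 + m' 1, _, _, hm2, hm2', fun i => ?_, fun i => ?_, fun i => ?_,
    fun i => ?_⟩
  · rw [cv_mul, cv_pow, hb]
  · rw [cv_mul, cv_pow, cv_inv, hb, sub_eq_add_neg]
  · fin_cases i
    · show m 0 ≤ _
      omega
    · show m 1 ≤ _
      omega
  · fin_cases i
    · show m' 0 ≤ _
      omega
    · show m' 1 ≤ _
      omega

theorem ampV_open (hX : IsVar X) (hν : Num ν) : IsOpen (AmpV ν) := by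
  rw [isOpen_iff_mem_nhds]
  rintro v ⟨n, c, D, hc, hD, rfl⟩
  obtain ⟨m, m', M, B, B', hB, hB', hcB, hcB', hmM, hmM'⟩ := exists_mm hX hν (D 0) (hD 0)
  have hball := ball_abs (S := ⊤) (F := fun v => v ∈ AmpV ν) (fun v w hv hw => ampV_add hv hw)
    (fun c _ hc v hv => ampV_smul hc hv) (ampV_cv ν (D 0) (hD 0))
    (fun i => by rw [← hcB]; exact ampV_cv ν _ (hB i)) (fun i => by rw [← hcB']; exact ampV_cv ν _ (hB' i))
    hmM hmM' (c 0) (Subfield.mem_top _) (hc 0)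
  have hM : (0 : ℝ) < 4 * (M + 1) := by positivity
  rw [Metric.mem_nhds_iff]
  refine ⟨c 0 / (4 * (M + 1)), div_pos (hc 0) hM, fun w hw => ?_⟩
  rw [Metric.mem_ball, dist_eq_norm] at hw
  obtain ⟨u, hu⟩ : ∃ u, u = w - ∑ i, c i • cv ν (D i) := ⟨_, rfl⟩
  rw [← hu] at hw
  have h1 : c 0 • cv ν (D 0) + u ∈ AmpV ν := by
    refine hball u (fun i => Subfield.mem_top _) fun i => ?_
    have h2 := norm_le_pi_norm u i
    rw [Real.norm_eq_abs] at h2
    have h3 : |u i| ≤ c 0 / (4 * (M + 1)) := h2.trans hw.le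
    rwa [le_div_iff₀ hM] at h3
  have h2 : w = (c 0 • cv ν (D 0) + u) + ∑ i : Fin n, c i.succ • cv ν (D i.succ) := by
    rw [hu, Fin.sum_univ_succ]
    abel
  rw [h2]
  refine fn_add (F := fun v => v ∈ AmpV ν) (fun v w hv hw => ampV_add hv hw) h1 ?_
  rcases Nat.eq_zero_or_pos n with h3 | h3
  · left
    subst h3
    exact Finset.sum_empty
  · right
    haveI : Nonempty (Fin n) := ⟨⟨0, h3⟩⟩
    exact ampV_of ν (fun i : Fin n => c i.succ) (fun i => D i.succ) (fun i => hc _) fun i => hD _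

variable (ν) in
/-- a positive multiple of `v` is the class of an ample divisor -/
def QA (v : Fin 2 → ℝ) : Prop := ∃ N : ℕ, 1 ≤ N ∧ ∃ A : Cart X, Ample A ∧ cv ν A = (N : ℝ) • v

variable (ν) in
/-- a positive multiple of `v` is the class of an effective divisor -/
def QE (v : Fin 2 → ℝ) : Prop := ∃ N : ℕ, 1 ≤ N ∧ ∃ E : Cart X, Effective E ∧ cv ν E = (N : ℝ) • v

theorem eff_mul {D E : Cart X} (hD : Effective D) (hE : Effective E) : Effective (D * E) := fun y => by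
  rw [mul_eq]
  exact (X.O y).mul_mem (hD y) (hE y)

theorem eff_one : Effective (1 : Cart X) := fun y => by
  rw [one_eq]
  exact (X.O y).one_mem

theorem eff_pow {D : Cart X} (hD : Effective D) (n : ℕ) : Effective (D ^ n) := fun y => by
  rw [pow_eq]
  exact (X.O y).pow_mem (hD y) n

theorem qa_of {A : Cart X} (hA : Ample A) : QA ν (cv ν A) :=
  ⟨1, le_rfl, A, hA, by rw [Nat.cast_one, one_smul]⟩

theorem qe_of {A : Cart X} (hA : Effective A) : QE ν (cv ν A) :=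
  ⟨1, le_rfl, A, hA, by rw [Nat.cast_one, one_smul]⟩

theorem qa_add (hX : IsVar X) {v w : Fin 2 → ℝ} (hv : QA ν v) (hw : QA ν w) : QA ν (v + w) := by
  obtain ⟨N, hN, A, hA, h1⟩ := hv
  obtain ⟨N', hN', A', hA', h2⟩ := hw
  refine ⟨N * N', Nat.mul_pos hN hN', A ^ N' * A' ^ N,
    ample_mul hX _ _ (ample_pow A N' hN' hA) (ample_pow A' N hN hA'), ?_⟩
  rw [cv_mul, cv_pow, cv_pow, h1, h2]
  push_cast
  module

theorem qe_add {v w : Fin 2 → ℝ} (hv : QE ν v) (hw : QE ν w) : QE ν (v + w) := by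
  obtain ⟨N, hN, A, hA, h1⟩ := hv
  obtain ⟨N', hN', A', hA', h2⟩ := hw
  refine ⟨N * N', Nat.mul_pos hN hN', A ^ N' * A' ^ N, eff_mul (eff_pow hA _) (eff_pow hA' _), ?_⟩
  rw [cv_mul, cv_pow, cv_pow, h1, h2]
  push_cast
  module

theorem rat_pos (q : ℚ) (hq : 0 < q) : ∃ a b : ℕ, 1 ≤ a ∧ 1 ≤ b ∧ (b : ℝ) * (q : ℝ) = a := by
  refine ⟨q.num.toNat, q.den, ?_, q.pos, ?_⟩
  · have := Rat.num_pos.2 hq
    omega
  · have h1 : ((q.num.toNat : ℤ) : ℚ) = q.num := by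
      rw [Int.toNat_of_nonneg (Rat.num_pos.2 hq).le]
    have h2 : (q.den : ℚ) * q = (q.num.toNat : ℚ) := by
      rw [mul_comm, Rat.mul_den_eq_num, ← h1]
      rfl
    exact_mod_cast h2

theorem qa_smul (q : ℚ) (hq : 0 < q) {v : Fin 2 → ℝ} (hv : QA ν v) : QA ν ((q : ℝ) • v) := by
  obtain ⟨N, hN, A, hA, h1⟩ := hv
  obtain ⟨a, b, ha, hb, hab⟩ := rat_pos q hq
  refine ⟨b * N, Nat.mul_pos hb hN, A ^ a, ample_pow A a ha hA, ?_⟩
  rw [cv_pow, h1, ← hab]
  push_cast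
  module

theorem qe_smul (q : ℚ) (hq : 0 ≤ q) {v : Fin 2 → ℝ} (hv : QE ν v) : QE ν ((q : ℝ) • v) := by
  rcases hq.eq_or_lt with h | h
  · rw [← h, Rat.cast_zero, zero_smul]
    exact ⟨1, le_rfl, 1, eff_one, by rw [cv_one, smul_zero]⟩
  obtain ⟨N, hN, A, hA, h1⟩ := hv
  obtain ⟨a, b, ha, hb, hab⟩ := rat_pos q h
  refine ⟨b * N, Nat.mul_pos hb hN, A ^ a, eff_pow hA a, ?_⟩
  rw [cv_pow, h1, ← hab]
  push_cast
  module

theorem qe_sum {ι : Type} (s : Finset ι) (f : ι → Fin 2 → ℝ) (hf : ∀ i ∈ s, QE ν (f i)) :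
    QE ν (∑ i ∈ s, f i) := by
  classical
  induction s using Finset.induction_on with
  | empty =>
    rw [Finset.sum_empty]
    exact ⟨1, le_rfl, 1, eff_one, by rw [cv_one, smul_zero]⟩
  | insert a s ha ih =>
    rw [Finset.sum_insert ha]
    exact qe_add (hf a (Finset.mem_insert_self _ _)) (ih fun i hi => hf i (Finset.mem_insert_of_mem hi))

theorem qn_sum (hX : IsVar X) {ι : Type} (s : Finset ι) (f : ι → Fin 2 → ℝ) (hf : ∀ i ∈ s, QA ν (f i)) :
    ∑ i ∈ s, f i = 0 ∨ QA ν (∑ i ∈ s, f i) := by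
  classical
  induction s using Finset.induction_on with
  | empty =>
    left
    exact Finset.sum_empty
  | insert a s ha ih =>
    right
    rw [Finset.sum_insert ha]
    exact fn_add (F := QA ν) (fun v w hv hw => qa_add hX hv hw) (hf a (Finset.mem_insert_self _ _))
      (ih fun i hi => hf i (Finset.mem_insert_of_mem hi))

/-- small rational perturbations of rational multiples of an ample class -/
theorem q_ball (hX : IsVar X) (hν : Num ν) (A : Cart X) (hA : Ample A) :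
    ∃ M : ℕ, ∀ q : ℚ, 0 < q → ∀ u : Fin 2 → ℚ, (∀ i, |(u i : ℝ)| * (4 * (M + 1)) ≤ q) →
      QA ν ((q : ℝ) • cv ν A + fun i => (u i : ℝ)) := by
  obtain ⟨m, m', M, B, B', hB, hB', hcB, hcB', hmM, hmM'⟩ := exists_mm hX hν A hA
  refine ⟨M, fun q hq u hu => ?_⟩
  have hS : ∀ c : ℚ, (c : ℝ) ∈ (algebraMap ℚ ℝ).fieldRange := fun c => ⟨c, rfl⟩
  refine ball_abs (S := (algebraMap ℚ ℝ).fieldRange) (F := QA ν) (fun v w hv hw => qa_add hX hv hw)
    ?_ (qa_of hA) (m := m) (m' := m') (M := M)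
    (fun i => by rw [← hcB]; exact qa_of (hB i)) (fun i => by rw [← hcB']; exact qa_of (hB' i))
    hmM hmM' q (hS q) (by exact_mod_cast hq) _ (fun i => hS _) hu
  rintro _ ⟨c, rfl⟩ hc v hv
  have hc' : 0 < c := by
    have h1 : (0 : ℝ) < (c : ℝ) := hc
    exact_mod_cast h1
  exact qa_smul c hc' hv

/-- the rational remainder is small -/
theorem rem_small {ι : Type} [Fintype ι] (c : ι → ℝ) (w : ι → Fin 2 → ℝ) (η : ℝ) (hη : 0 < η) :
    ∃ ε : ℝ, 0 < ε ∧ ∀ q : ι → ℚ, (∀ i, |c i - q i| ≤ ε) →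
      ∀ j, |(∑ i, (c i - (q i : ℝ)) • w i) j| ≤ η := by
  obtain ⟨R, hR⟩ : ∃ R, R = ∑ i, ‖w i‖ + 1 := ⟨_, rfl⟩
  have hR0 : 0 < R := by
    rw [hR]
    have : 0 ≤ ∑ i, ‖w i‖ := Finset.sum_nonneg fun i _ => norm_nonneg _
    linarith
  refine ⟨η / R, div_pos hη hR0, fun q hq j => ?_⟩
  rw [Finset.sum_apply]
  refine (Finset.abs_sum_le_sum_abs _ _).trans ?_
  have h1 : ∀ i ∈ (Finset.univ : Finset ι), |((c i - (q i : ℝ)) • w i) j| ≤ η / R * ‖w i‖ := by
    intro i _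
    rw [Pi.smul_apply, smul_eq_mul, abs_mul]
    have h2 := norm_le_pi_norm (w i) j
    rw [Real.norm_eq_abs] at h2
    exact mul_le_mul (hq i) h2 (abs_nonneg _) (by positivity)
  refine (Finset.sum_le_sum h1).trans ?_
  rw [← Finset.mul_sum]
  have h3 : ∑ i, ‖w i‖ ≤ R := by rw [hR]; linarith
  calc η / R * ∑ i, ‖w i‖ ≤ η / R * R := mul_le_mul_of_nonneg_left h3 (by positivity)
    _ = η := div_mul_cancel₀ _ hR0.ne'

theorem rat_near (c ε : ℝ) (hc : 0 ≤ c) (hε : 0 < ε) :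
    ∃ q : ℚ, 0 < q ∧ |c - q| ≤ ε := by
  obtain ⟨q, h1, h2⟩ := exists_rat_btwn (show c < c + ε by linarith)
  refine ⟨q, ?_, ?_⟩
  · have : (0 : ℝ) < q := by linarith
    exact_mod_cast this
  · rw [abs_le]
    constructor <;> linarith

theorem ac_holds (hX : IsVar X) (hν : Num ν) : AC ν := by
  rintro D ⟨n, c, B, hc, hB, hD⟩
  obtain ⟨M, hM⟩ := q_ball hX hν (B 0) (hB 0)
  have hM0 : (0 : ℝ) < 4 * (M + 1) := by positivity
  obtain ⟨ε, hε, hrem⟩ := rem_small c (fun i => cv ν (B i)) (c 0 / 2 / (4 * (M + 1)))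
    (div_pos (half_pos (hc 0)) hM0)
  choose q hq0 hq using fun i => rat_near (c i) (min ε (c 0 / 2)) (hc i).le (lt_min hε (half_pos (hc 0)))
  have hq' := hrem q fun i => (hq i).trans (min_le_left _ _)
  -- the rational remainder
  let u : Fin 2 → ℚ := fun j => ((Multiplicative.toAdd (ν D) j : ℤ) : ℚ) -
    ∑ i, q i * ((Multiplicative.toAdd (ν (B i)) j : ℤ) : ℚ)
  have hu : (fun j => ((u j : ℚ) : ℝ)) = ∑ i, (c i - (q i : ℝ)) • cv ν (B i) := by
    have h1 : ∑ i, (c i - (q i : ℝ)) • cv ν (B i) = cv ν D - ∑ i, (q i : ℝ) • cv ν (B i) := by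
      rw [hD, ← Finset.sum_sub_distrib]
      exact Finset.sum_congr rfl fun i _ => sub_smul _ _ _
    rw [h1]
    funext j
    show ((u j : ℚ) : ℝ) = _
    rw [Pi.sub_apply, Finset.sum_apply]
    show ((((Multiplicative.toAdd (ν D) j : ℤ) : ℚ) -
      ∑ i, q i * ((Multiplicative.toAdd (ν (B i)) j : ℤ) : ℚ) : ℚ) : ℝ) = _
    push_cast
    rfl
  have hq00 : c 0 / 2 ≤ (q 0 : ℝ) := by
    have h1 := (abs_le.1 ((hq 0).trans (min_le_right _ _))).2
    linarith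
  have h1 : QA ν (((q 0 : ℚ) : ℝ) • cv ν (B 0) + fun j => ((u j : ℚ) : ℝ)) := by
    refine hM (q 0) (hq0 0) u fun j => ?_
    have h2 := hq' j
    have h3 : ((u j : ℚ) : ℝ) = (∑ i, (c i - (q i : ℝ)) • cv ν (B i)) j := congrFun hu j
    rw [← h3] at h2
    rw [le_div_iff₀ hM0] at h2
    linarith
  have h2 : QA ν (cv ν D) := by
    have h3 : cv ν D = (((q 0 : ℚ) : ℝ) • cv ν (B 0) + fun j => ((u j : ℚ) : ℝ)) +
        ∑ i : Fin n, ((q i.succ : ℚ) : ℝ) • cv ν (B i.succ) := by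
      rw [hu]
      have h4 : ∑ i, (c i - (q i : ℝ)) • cv ν (B i) = cv ν D - ∑ i, (q i : ℝ) • cv ν (B i) := by
        rw [hD, ← Finset.sum_sub_distrib]
        exact Finset.sum_congr rfl fun i _ => sub_smul _ _ _
      rw [h4, Fin.sum_univ_succ]
      abel
    rw [h3]
    refine fn_add (F := QA ν) (fun v w hv hw => qa_add hX hv hw) h1 ?_
    exact qn_sum hX _ _ fun i _ => qa_smul _ (hq0 _) (qa_of (hB _))
  obtain ⟨N, hN, A, hA, hcA⟩ := h2
  refine ample_of_pow D N hN (ample_congr hν A _ hA ?_)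
  rw [cv_pow, hcA]

theorem bg_holds (hX : IsVar X) (hν : Num ν) (hA : ∃ A : Cart X, Ample A) : BG ν := by
  intro B hB
  obtain ⟨A, hA⟩ := hA
  -- a small multiple of the ample class can be subtracted
  obtain ⟨ε, hε0, hε⟩ : ∃ ε : ℚ, 0 < ε ∧ cv ν B - (ε : ℝ) • cv ν A ∈ EffV ν := by
    have h1 : Tendsto (fun t : ℝ => cv ν B - t • cv ν A) (𝓝 0) (𝓝 (cv ν B - (0 : ℝ) • cv ν A)) :=
      (continuous_const.sub (continuous_id.smul continuous_const)).tendsto 0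
    rw [zero_smul, sub_zero] at h1
    have h2 := h1.eventually (isOpen_interior.mem_nhds hB)
    rw [Metric.eventually_nhds_iff] at h2
    obtain ⟨δ, hδ, h3⟩ := h2
    obtain ⟨q, hq1, hq2⟩ := exists_rat_btwn hδ
    refine ⟨q, by exact_mod_cast hq1, interior_subset (h3 ?_)⟩
    rw [Real.dist_eq, sub_zero, abs_of_pos hq1]
    exact hq2
  obtain ⟨n, c, E, hc, hE, hsum⟩ := hε
  obtain ⟨M, hM⟩ := q_ball hX hν A hA
  have hM0 : (0 : ℝ) < 4 * (M + 1) := by positivity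
  have hε1 : (0 : ℝ) < ε := by exact_mod_cast hε0
  obtain ⟨η, hη, hrem⟩ := rem_small c (fun i => cv ν (E i)) (ε / (4 * (M + 1))) (div_pos hε1 hM0)
  choose q hq0 hq using fun i => rat_near (c i) η (hc i) hη
  have hq' := hrem q hq
  let u : Fin 2 → ℚ := fun j => ((Multiplicative.toAdd (ν B) j : ℤ) : ℚ) -
    ε * ((Multiplicative.toAdd (ν A) j : ℤ) : ℚ) -
    ∑ i, q i * ((Multiplicative.toAdd (ν (E i)) j : ℤ) : ℚ)
  have h4 : ∑ i, (c i - (q i : ℝ)) • cv ν (E i) =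
      cv ν B - (ε : ℝ) • cv ν A - ∑ i, (q i : ℝ) • cv ν (E i) := by
    rw [hsum, ← Finset.sum_sub_distrib]
    exact Finset.sum_congr rfl fun i _ => sub_smul _ _ _
  have hu : (fun j => ((u j : ℚ) : ℝ)) = ∑ i, (c i - (q i : ℝ)) • cv ν (E i) := by
    rw [h4]
    funext j
    show ((u j : ℚ) : ℝ) = _
    rw [Pi.sub_apply, Finset.sum_apply]
    show ((((Multiplicative.toAdd (ν B) j : ℤ) : ℚ) - ε * ((Multiplicative.toAdd (ν A) j : ℤ) : ℚ) -
      ∑ i, q i * ((Multiplicative.toAdd (ν (E i)) j : ℤ) : ℚ) : ℚ) : ℝ) = _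
    push_cast
    rfl
  have h1 : QA ν ((ε : ℝ) • cv ν A + fun j => ((u j : ℚ) : ℝ)) := by
    refine hM ε hε0 u fun j => ?_
    have h2 := hq' j
    have h3 : ((u j : ℚ) : ℝ) = (∑ i, (c i - (q i : ℝ)) • cv ν (E i)) j := congrFun hu j
    rw [← h3] at h2
    rw [le_div_iff₀ hM0] at h2
    exact h2
  have h2 : QE ν (∑ i, ((q i : ℚ) : ℝ) • cv ν (E i)) :=
    qe_sum _ _ fun i _ => qe_smul _ (hq0 i).le (qe_of (hE i))
  have h3 : cv ν B = ((ε : ℝ) • cv ν A + fun j => ((u j : ℚ) : ℝ)) +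
      ∑ i, ((q i : ℚ) : ℝ) • cv ν (E i) := by
    rw [hu, h4]
    abel
  obtain ⟨N, hN, A', hA', hcA⟩ := h1
  obtain ⟨N', hN', E', hE', hcE⟩ := h2
  have h5 : cv ν (B ^ (N * N') * (E' ^ N)⁻¹) = cv ν (A' ^ N') := by
    rw [cv_mul, cv_inv, cv_pow, cv_pow, cv_pow, hcA, hcE, h3]
    push_cast
    module
  refine ⟨N * N', Nat.mul_pos hN hN', B ^ (N * N') * (E' ^ N)⁻¹, E' ^ N,
    ample_congr hν _ _ (ample_pow A' N' hN' hA') h5, eff_pow hE' N, ?_⟩
  rw [inv_mul_cancel_right]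

end Pool.Agent.H36.TU
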