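import Pool.Agent.H83.TU.Props
import Pool.Agent.H54.RV.B10

/-!
# Theorem U: sections which are units at finitely many points (the properties `UN X`, `UF X`)

`avoid`: a vector space over an infinite field is not a finite union of proper subspaces.  `un_pt`, `uf_pt`: one point.
-/

set_option autoImplicit false

namespace Pool.Agent.H36.TU

open Pool.Agent.H54.RV Pool.Agent.H83.TU

variable {k K : Type} [Field k] [Field K] [Algebra k K] {X : Mod k K}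

theorem alg_mem (x : X.P) (c : k) : algebraMap k K c ∈ X.O x := (X.O x).algebraMap_mem c

/-- the values of the elements of `V` at the point `x` -/
noncomputable def val (x : X.P) (e : K) (V : Submodule k K) (hV : ∀ s ∈ V, s * e ∈ X.O x) :
    V →ₗ[k] X.kap x where
  toFun s := X.rs x ((s : K) * e)
  map_add' s t := by
    rw [Submodule.coe_add, add_mul]
    exact rs_add x (hV s s.2) (hV t t.2)
  map_smul' c s := by
    rw [Submodule.coe_smul, Algebra.smul_def, mul_assoc, rs_mul x (alg_mem x c) (hV s s.2), rs_alg,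
      RingHom.id_apply, Algebra.smul_def]

theorem val_apply (x : X.P) (e : K) (V : Submodule k K) (hV : ∀ s ∈ V, s * e ∈ X.O x) (s : V) :
    val x e V hV s = X.rs x ((s : K) * e) := rfl

theorem avoid [Infinite k] (V : Submodule k K) (T : Finset X.P) (e : X.P → K)
    (hV : ∀ x ∈ T, ∀ s ∈ V, s * e x ∈ X.O x) (h : ∀ x ∈ T, ∃ s ∈ V, Un (X.O x) (s * e x)) :
    ∃ s ∈ V, ∀ x ∈ T, Un (X.O x) (s * e x) := by
  by_contra hcon
  push Not at hcon
  have hc : (⋃ x : T, ((LinearMap.ker (val (x : X.P) (e x) V (hV x x.2)) : Submodule k V) : Set V)) =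
      Set.univ := by
    rw [Set.eq_univ_iff_forall]
    intro s
    obtain ⟨x, hx, hxs⟩ := hcon s s.2
    rw [Set.mem_iUnion]
    refine ⟨⟨x, hx⟩, ?_⟩
    rw [SetLike.mem_coe, LinearMap.mem_ker, val_apply]
    by_contra h1
    exact hxs ((rs_ne x (hV x hx s s.2)).1 h1)
  obtain ⟨⟨x, hx⟩, hp⟩ := Subspace.exists_eq_top_of_iUnion_eq_univ hc
  obtain ⟨s, hs, hu⟩ := h x hx
  have h1 : (⟨s, hs⟩ : V) ∈ LinearMap.ker (val x (e x) V (hV x hx)) := by
    rw [hp]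
    exact Submodule.mem_top
  rw [LinearMap.mem_ker, val_apply] at h1
  exact (rs_ne x (hV x hx s hs)).2 hu h1

theorem sec1_mul {D E : Cart X} {s t : K} (hs : Sec D 1 s) (ht : Sec E 1 t) : Sec (D * E) 1 (s * t) := by
  intro y
  have h1 := hs y
  have h2 := ht y
  rw [pow_one] at h1 h2 ⊢
  have e1 : s * t * (D * E).eq y = s * D.eq y * (t * E.eq y) := by
    rw [mul_eq]
    ring
  rw [e1]
  exact (X.O y).mul_mem h1 h2

theorem nz1_mul {D E : Cart X} {s t : K} {x : X.P} (hs : x ∈ nz D 1 s) (ht : x ∈ nz E 1 t) :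
    x ∈ nz (D * E) 1 (s * t) := by
  have h1 : Un (X.O x) (s * D.eq x ^ 1) := hs
  have h2 : Un (X.O x) (t * E.eq x ^ 1) := ht
  show Un (X.O x) (s * t * (D * E).eq x ^ 1)
  rw [pow_one] at h1 h2 ⊢
  have e1 : s * t * (D * E).eq x = s * D.eq x * (t * E.eq x) := by
    rw [mul_eq]
    ring
  rw [e1]
  exact un_mul h1 h2

theorem un_pt (hX : IsVar X) (A L : Cart X) (hA : Ample A) (x : X.P) :
    ∃ m₀ : ℕ, ∀ m ≥ m₀, ∃ s : K, Sec (A ^ m * L) 1 s ∧ x ∈ nz (A ^ m * L) 1 s := by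
  obtain ⟨n, W, N, hn, -, hx, hj⟩ := amp_pt hX A 1 hA x
  choose n' W' N' hn' hW' hx' hj' using fun r : ℕ => amp_pt hX A (A ^ r * L) hA x
  let a : ℕ → ℕ := fun r => n' r * (n * N' r) + r
  refine ⟨∑ r ∈ Finset.range n, a r + n * N, fun m hm => ?_⟩
  obtain ⟨r, hr⟩ : ∃ r, r = m % n := ⟨_, rfl⟩
  have hrn : r < n := by
    rw [hr]
    exact Nat.mod_lt _ (by omega)
  have har : a r ≤ ∑ r ∈ Finset.range n, a r :=
    Finset.single_le_sum (fun _ _ => Nat.zero_le _) (Finset.mem_range.2 hrn)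
  obtain ⟨j, hjm, hjN⟩ : ∃ j, m = a r + n * j ∧ N ≤ j := by
    have h1 : m % n = a r % n := by
      have h2 : a r = r + n * (n' r * N' r) := by
        show n' r * (n * N' r) + r = _
        ring
      rw [h2, Nat.add_mul_mod_self_left, Nat.mod_eq_of_lt hrn, hr]
    have h3 : (m - a r) % n = 0 := Nat.sub_mod_eq_zero_of_mod_eq h1
    obtain ⟨j, hj0⟩ := Nat.dvd_of_mod_eq_zero h3
    refine ⟨j, by omega, ?_⟩
    have h4 : n * N ≤ n * j := by omega
    exact Nat.le_of_mul_le_mul_left h4 (by omega)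
  have hNr : N' r ≤ n * N' r := Nat.le_mul_of_pos_left _ (by omega)
  obtain ⟨s₁, h1, h2⟩ := hj' r (n * N' r) hNr
  obtain ⟨s₂, h3, h4⟩ := hj j hjN
  have hD : A ^ m * L = (A ^ n' r) ^ (n * N' r) * (A ^ r * L) * ((A ^ n) ^ j * 1) := by
    rw [hjm]
    show A ^ (n' r * (n * N' r) + r + n * j) * L = _
    rw [pow_add, pow_add, pow_mul, pow_mul A n j, mul_one]
    simp only [mul_assoc, mul_comm, mul_left_comm]
  refine ⟨s₁ * s₂, ?_, ?_⟩
  · rw [hD]
    exact sec1_mul h1 h3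
  · rw [hD]
    refine nz1_mul ?_ ?_
    · rw [h2]
      exact hx' r
    · rw [h4]
      exact hx

theorem un_holds [Infinite k] (hX : IsVar X) : UN X := by
  intro A M T hA
  choose m₀ hm using fun x => un_pt hX A M hA x
  refine ⟨T.sup m₀, fun m hmm => ?_⟩
  have h1 : ∀ x ∈ T, ∃ s ∈ secL (A ^ m * M) 1, Un (X.O x) (s * (A ^ m * M).eq x ^ 1) := by
    intro x hx
    obtain ⟨s, hs, hu⟩ := hm x m ((Finset.le_sup hx).trans hmm)
    exact ⟨s, hs, hu⟩
  obtain ⟨s, hs, hu⟩ := avoid (secL (A ^ m * M) 1) T (fun x => (A ^ m * M).eq x ^ 1)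
    (fun x _ s hs => hs x) h1
  exact ⟨s, hs, hu⟩

theorem sec_pow_iff (A : Cart X) (m : ℕ) (s : K) : Sec (A ^ m * 1) 1 s ↔ Sec A m s := by
  unfold Sec
  refine forall_congr' fun x => ?_
  rw [pow_one, mul_one, pow_eq]

theorem nz_pow_eq (A : Cart X) (m : ℕ) (s : K) : nz (A ^ m * 1) 1 s = nz A m s := by
  ext x
  show Un (X.O x) _ ↔ Un (X.O x) _
  rw [pow_one, mul_one, pow_eq]

theorem uf_pt (hX : IsVar X) (A : Cart X) (hA : Ample A) (x : X.P) (f : K) (hf : f ∈ X.O x) :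
    ∃ m₀ : ℕ, ∀ m ≥ m₀, ∃ s : K, Sec A m s ∧ Sec A m (s * f) ∧ x ∈ nz A m s := by
  obtain ⟨n, hn, s₀, hs₀, hx, haff⟩ := hA x
  obtain ⟨c, hc1, hc2, hc3⟩ := hX.frac _ x haff hx f hf
  obtain ⟨N₁, hN₁⟩ := ext_sec hX A 1 n s₀ c hs₀ (fun y hy => by
    rw [one_eq, mul_one]
    exact (mem_sec _ c).1 hc1 y hy)
  obtain ⟨N₂, hN₂⟩ := ext_sec hX A 1 n s₀ (f * c) hs₀ (fun y hy => by
    rw [one_eq, mul_one]
    exact (mem_sec _ _).1 hc3 y hy)
  obtain ⟨m₁, hm₁⟩ := un_pt hX A 1 hA x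
  obtain ⟨j, hj⟩ : ∃ j, j = max N₁ N₂ := ⟨_, rfl⟩
  refine ⟨n * j + m₁, fun m hm => ?_⟩
  obtain ⟨m', hm', hm'1⟩ : ∃ m', m = n * j + m' ∧ m₁ ≤ m' := ⟨m - n * j, by omega, by omega⟩
  obtain ⟨t, ht, htx⟩ := hm₁ m' hm'1
  rw [sec_pow_iff] at ht
  rw [nz_pow_eq] at htx
  refine ⟨s₀ ^ j * c * t, fun y => ?_, fun y => ?_, ?_⟩
  · have e1 : s₀ ^ j * c * t * A.eq y ^ m =
        s₀ ^ j * c * ((A.eq y ^ n) ^ j * (1 : Cart X).eq y) * (t * A.eq y ^ m') := by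
      rw [one_eq, hm', pow_add, pow_mul]
      ring
    rw [e1]
    exact (X.O y).mul_mem (hN₁ j (hj ▸ le_max_left _ _) y) (ht y)
  · have e1 : s₀ ^ j * c * t * f * A.eq y ^ m =
        s₀ ^ j * (f * c) * ((A.eq y ^ n) ^ j * (1 : Cart X).eq y) * (t * A.eq y ^ m') := by
      rw [one_eq, hm', pow_add, pow_mul]
      ring
    rw [e1]
    exact (X.O y).mul_mem (hN₂ j (hj ▸ le_max_right _ _) y) (ht y)
  · show Un (X.O x) _
    have e1 : s₀ ^ j * c * t * A.eq x ^ m = (s₀ * A.eq x ^ n) ^ j * c * (t * A.eq x ^ m') := by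
      rw [hm', pow_add, pow_mul]
      ring
    rw [e1]
    exact un_mul (un_mul (un_pow hx j) hc2) htx

theorem uf_holds [Infinite k] (hX : IsVar X) : UF X := by
  intro A T f hA hf
  have h : ∀ x, ∃ m₀ : ℕ, x ∈ T → ∀ m ≥ m₀, ∃ s : K, Sec A m s ∧ Sec A m (s * f) ∧ x ∈ nz A m s := by
    intro x
    by_cases hx : x ∈ T
    · obtain ⟨m₀, hm⟩ := uf_pt hX A hA x f (hf x hx)
      exact ⟨m₀, fun _ => hm⟩
    · exact ⟨0, fun h => absurd h hx⟩
  choose m₀ hm using h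
  refine ⟨T.sup m₀, fun m hmm => ?_⟩
  let V : Submodule k K := secL A m ⊓ (secL A m).comap (LinearMap.mulRight k f)
  have hV : ∀ s, s ∈ V ↔ Sec A m s ∧ Sec A m (s * f) := fun s => Iff.rfl
  obtain ⟨s, hs, hu⟩ := avoid V T (fun x => A.eq x ^ m) (fun x _ s hs => ((hV s).1 hs).1 x)
    (fun x hx => by
      obtain ⟨s, h1, h2, h3⟩ := hm x hx m ((Finset.le_sup hx).trans hmm)
      exact ⟨s, (hV s).2 ⟨h1, h2⟩, h3⟩)
  exact ⟨s, ((hV s).1 hs).1, ((hV s).1 hs).2, hu⟩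

end Pool.Agent.H36.TU
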