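import Pool.Agent.H83.TU.PC
import Pool.Agent.H83.TU.Props
import Pool.Agent.H36.TU.UN

/-!
# Theorem U, the volume bound (1): the graded pieces of the filtration by a prime divisor

`hh E = dim L(E)`, `gg S E = dim L(E) / L(E - S)`.  If `M` has a section which is a unit at the generic point of `S`
then `gg S E ≤ gg S (E * M)`.
-/

set_option autoImplicit false

namespace Pool.Agent.H36.TU

open Pool.Agent.H54.RV Pool.Agent.H83.TU

variable {k K : Type} [Field k] [Field K] [Algebra k K] {X : Mod k K}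

/-- the dimension of the space of sections -/
noncomputable def hh (E : Cart X) : ℤ := (Module.finrank k (secL E 1) : ℤ)

/-- the dimension of `L(E) / L(E - S)` -/
noncomputable def gg (S E : Cart X) : ℤ := hh E - hh (E * S⁻¹)

/-- `S` is the Cartier divisor of the prime divisor `P` -/
structure PS (P : PDiv X) (S : Cart X) : Prop where
  eff : Effective S
  ord : P.p.ord (S.eq P.η) = 1
  sub : ∀ E : Cart X, Effective E → 0 < P.p.ord (E.eq P.η) → Effective (E * S⁻¹)

/-- `M` has a section which is a unit at `η` -/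
def UnAt (η : X.P) (M : Cart X) : Prop := ∃ t : K, Sec M 1 t ∧ η ∈ nz M 1 t

theorem hh_nonneg (E : Cart X) : 0 ≤ hh E := Int.natCast_nonneg _

theorem unAt_one (η : X.P) : UnAt η (1 : Cart X) := by
  refine ⟨1, fun y => ?_, ?_⟩
  · rw [one_eq, one_pow, mul_one]
    exact (X.O y).one_mem
  · show Un (X.O η) _
    rw [one_eq, one_pow, mul_one]
    exact un_one _

theorem unAt_mul {η : X.P} {M N : Cart X} (hM : UnAt η M) (hN : UnAt η N) : UnAt η (M * N) := by
  obtain ⟨s, h1, h2⟩ := hM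
  obtain ⟨t, h3, h4⟩ := hN
  exact ⟨s * t, sec1_mul h1 h3, nz1_mul h2 h4⟩

theorem unAt_pow {η : X.P} {M : Cart X} (hM : UnAt η M) (n : ℕ) : UnAt η (M ^ n) := by
  induction n with
  | zero => rw [pow_zero]; exact unAt_one η
  | succ n ih => rw [pow_succ]; exact unAt_mul ih hM

theorem secL_sub {P : PDiv X} {S : Cart X} (hS : PS P S) (E : Cart X) : secL (E * S⁻¹) 1 ≤ secL E 1 := by
  intro s hs y
  have h1 : s * (E * S⁻¹).eq y ^ 1 ∈ X.O y := hs y
  have h2 := (X.O y).mul_mem h1 (hS.eff y)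
  have e : s * (E * S⁻¹).eq y ^ 1 * S.eq y = s * E.eq y ^ 1 := by
    rw [mul_eq, inv_eq, pow_one, pow_one]
    have := S.ne y
    field_simp
  rwa [e] at h2

theorem mem_sub_iff {P : PDiv X} {S : Cart X} (hS : PS P S) (E : Cart X) (s : K) (hs : s ∈ secL E 1)
    (h0 : s ≠ 0) : s ∈ secL (E * S⁻¹) 1 ↔ 0 < P.p.ord (s * E.eq P.η) := by
  constructor
  · intro h
    have h1 : s * (E * S⁻¹).eq P.η ^ 1 ∈ X.O P.η := h P.η
    rw [mul_eq, inv_eq, pow_one] at h1
    have h2 : s * (E.eq P.η * (S.eq P.η)⁻¹) = s * E.eq P.η * (S.eq P.η)⁻¹ := by ring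
    rw [h2] at h1
    have h3 : s * E.eq P.η ≠ 0 := mul_ne_zero h0 (E.ne _)
    have h4 := (ord_nonneg P.p _ (mul_ne_zero h3 (inv_ne_zero (S.ne _)))).2 ((P.mem _).1 h1)
    rw [ord_mul P.p _ _ h3 (inv_ne_zero (S.ne _)), ord_inv, hS.ord] at h4
    omega
  · intro h
    have h1 : Effective (prin X s h0 * E) := by
      intro y
      have h2 : s * E.eq y ^ 1 ∈ X.O y := hs y
      rw [pow_one] at h2
      exact h2
    have h2 := hS.sub (prin X s h0 * E) h1 h
    intro y
    have h3 := h2 y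
    rw [pow_one]
    have h4 : (prin X s h0 * E * S⁻¹).eq y = s * (E * S⁻¹).eq y := by
      rw [mul_eq, mul_eq, mul_eq]
      have h5 : (prin X s h0).eq y = s := rfl
      rw [h5]
      ring
    rw [h4] at h3
    exact h3

theorem gg_mono {P : PDiv X} {S : Cart X} (hS : PS P S) (hfin : ∀ E : Cart X, Module.Finite k (secL E 1))
    (E M : Cart X) (hM : UnAt P.η M) : gg S E ≤ gg S (E * M) := by
  obtain ⟨t, ht, htu⟩ := hM
  have htu' : Un (X.O P.η) (t * M.eq P.η ^ 1) := htu
  rw [pow_one] at htu'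
  have ht0 : t ≠ 0 := left_ne_zero_of_mul htu'.1
  have hord : P.p.ord (t * M.eq P.η) = 0 :=
    (ord_eq_zero P.p _ htu'.1).2 ⟨(P.mem _).1 htu'.2.1, (P.mem _).1 htu'.2.2⟩
  let f : K →ₗ[k] K := LinearMap.mulRight k t
  have hf : ∀ s, f s = s * t := fun s => rfl
  have hfi : Function.Injective f := by
    intro a b hab
    rw [hf, hf] at hab
    exact mul_right_cancel₀ ht0 hab
  have hcomm : E * S⁻¹ * M = E * M * S⁻¹ := mul_right_comm _ _ _
  have h1 : (secL E 1).map f ≤ secL (E * M) 1 := by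
    rw [Submodule.map_le_iff_le_comap]
    intro s hs
    exact sec1_mul hs ht
  have h2 : secL (E * M * S⁻¹) 1 ≤ secL (E * M) 1 := secL_sub hS _
  have h3 : (secL E 1).map f ⊓ secL (E * M * S⁻¹) 1 = (secL (E * S⁻¹) 1).map f := by
    refine le_antisymm ?_ ?_
    · rintro _ ⟨⟨s, hs, rfl⟩, hs2⟩
      refine ⟨s, ?_, rfl⟩
      by_cases h0 : s = 0
      · rw [h0]
        exact Submodule.zero_mem _
      · have h4 : f s ≠ 0 := by
          rw [hf]
          exact mul_ne_zero h0 ht0
        have h5 := (mem_sub_iff hS (E * M) (f s) (h1 ⟨s, hs, rfl⟩) h4).1 hs2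
        have h6 : f s * (E * M).eq P.η = s * E.eq P.η * (t * M.eq P.η) := by
          rw [hf, mul_eq]
          ring
        rw [h6, ord_mul P.p _ _ (mul_ne_zero h0 (E.ne _)) htu'.1, hord, add_zero] at h5
        exact (mem_sub_iff hS E s hs h0).2 h5
    · rintro _ ⟨s, hs, rfl⟩
      refine ⟨⟨s, secL_sub hS E hs, rfl⟩, ?_⟩
      rw [← hcomm]
      exact sec1_mul hs ht
  haveI := hfin E
  haveI := hfin (E * M)
  haveI := hfin (E * M * S⁻¹)
  haveI : Module.Finite k ((secL E 1).map f) := inferInstance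
  have h4 := Submodule.finrank_sup_add_finrank_inf_eq ((secL E 1).map f) (secL (E * M * S⁻¹) 1)
  have h5 : Module.finrank k ↥((secL E 1).map f ⊔ secL (E * M * S⁻¹) 1) ≤
      Module.finrank k (secL (E * M) 1) := Submodule.finrank_mono (sup_le h1 h2)
  have h6 : ∀ V : Submodule k K, Module.finrank k (V.map f) = Module.finrank k V := fun V =>
    (Submodule.equivMapOfInjective f hfi V).symm.finrank_eq
  rw [h3, h6, h6] at h4
  unfold gg hh
  omega

end Pool.Agent.H36.TU
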