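import Pool.Agent.H36.TU.VA

/-!
# Theorem U, the volume bound (2): growth of the graded pieces and the bound for `h0`
-/

set_option autoImplicit false

namespace Pool.Agent.H36.TU

open Pool.Agent.H54.RV Pool.Agent.H83.TU

variable {k K : Type} [Field k] [Field K] [Algebra k K] {X : Mod k K}

theorem hh_pow (D : Cart X) (n : ℕ) : (h0 D n : ℤ) = hh (D ^ n) := by
  unfold h0 hh
  have h1 : secL D n = secL (D ^ n) 1 := by
    ext s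
    show Sec D n s ↔ Sec (D ^ n) 1 s
    unfold Sec
    simp only [pow_eq, pow_one]
  rw [h1]

theorem tele (S E : Cart X) (N : ℕ) :
    hh E - hh (E * S⁻¹ ^ N) = ∑ j ∈ Finset.range N, gg S (E * S⁻¹ ^ j) := by
  induction N with
  | zero => rw [pow_zero, mul_one, sub_self, Finset.sum_range_zero]
  | succ N ih =>
    rw [Finset.sum_range_succ, ← ih]
    unfold gg
    rw [pow_succ, mul_assoc]
    ring

/-- the growth of the graded pieces of the multiples of a divisor -/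
theorem gg_growth {P : PDiv X} {S : Cart X} (hS : PS P S)
    (hfin : ∀ E : Cart X, Module.Finite k (secL E 1)) (A : Cart X) (hA : UnAt P.η A)
    (hAS : UnAt P.η (A * S⁻¹)) (N : ℕ) : (N : ℤ) * gg S (A ^ N) ≤ hh (A ^ (2 * N)) := by
  have h1 : ∀ j ∈ Finset.range N, gg S (A ^ N) ≤ gg S (A ^ (2 * N) * S⁻¹ ^ j) := by
    intro j hj
    have hjN : j < N := Finset.mem_range.1 hj
    have h2 : A ^ (2 * N) * S⁻¹ ^ j = A ^ N * (A ^ (N - j) * (A * S⁻¹) ^ j) := by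
      have h3 : 2 * N = N + ((N - j) + j) := by omega
      rw [h3, pow_add, pow_add, mul_pow]
      simp only [mul_assoc]
    rw [h2]
    exact gg_mono hS hfin _ _ (unAt_mul (unAt_pow hA _) (unAt_pow hAS _))
  have h2 := Finset.sum_le_sum h1
  rw [Finset.sum_const, Finset.card_range, nsmul_eq_mul, ← tele] at h2
  have h3 := hh_nonneg (A ^ (2 * N) * S⁻¹ ^ N)
  linarith

theorem gg_growth' {P : PDiv X} {S : Cart X} (hS : PS P S)
    (hfin : ∀ E : Cart X, Module.Finite k (secL E 1)) (A : Cart X) (hA : UnAt P.η A)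
    (hAS : UnAt P.η (A * S⁻¹)) (C : ℕ) (hC : ∀ n : ℕ, 1 ≤ n → h0 A n ≤ C * n ^ 3) (N : ℕ)
    (hN : 1 ≤ N) : gg S (A ^ N) ≤ 8 * (C : ℤ) * (N : ℤ) ^ 2 := by
  have h1 := gg_growth hS hfin A hA hAS N
  have h2 : hh (A ^ (2 * N)) ≤ (C : ℤ) * (2 * N : ℤ) ^ 3 := by
    rw [← hh_pow]
    exact_mod_cast hC (2 * N) (by omega)
  have h3 : (N : ℤ) * gg S (A ^ N) ≤ (N : ℤ) * (8 * (C : ℤ) * (N : ℤ) ^ 2) := by
    calc (N : ℤ) * gg S (A ^ N) ≤ (C : ℤ) * (2 * N : ℤ) ^ 3 := h1.trans h2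
      _ = (N : ℤ) * (8 * (C : ℤ) * (N : ℤ) ^ 2) := by ring
  exact le_of_mul_le_mul_left h3 (by exact_mod_cast hN)

/-- `A ^ |m| * b ^ (-m)` has a section which is a unit at `η` -/
theorem unAt_zpow {η : X.P} (A b : Cart X) (h1 : UnAt η (A * b)) (h2 : UnAt η (A * b⁻¹)) (m : ℤ) :
    UnAt η (A ^ m.natAbs * (b ^ m)⁻¹) := by
  rcases Int.natAbs_eq m with h | h
  · obtain ⟨n, hn⟩ : ∃ n, n = m.natAbs := ⟨_, rfl⟩
    rw [← hn] at h ⊢
    rw [h, zpow_natCast, ← inv_pow, ← mul_pow]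
    exact unAt_pow h2 n
  · obtain ⟨n, hn⟩ : ∃ n, n = m.natAbs := ⟨_, rfl⟩
    rw [← hn] at h ⊢
    rw [h, zpow_neg, inv_inv, zpow_natCast, ← mul_pow]
    exact unAt_pow h1 n

/-- the data for the bound -/
structure BD (P : PDiv X) (S A : Cart X) (b : Fin 2 → Cart X) (C : ℕ) : Prop where
  ps : PS P S
  fin : ∀ E : Cart X, Module.Finite k (secL E 1)
  a : UnAt P.η A
  aS : UnAt P.η (A * S)
  aS' : UnAt P.η (A * S⁻¹)
  ab : ∀ i, UnAt P.η (A * b i)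
  ab' : ∀ i, UnAt P.η (A * (b i)⁻¹)
  gr : ∀ n : ℕ, 1 ≤ n → h0 A n ≤ C * n ^ 3

/-- the size of the exponents -/
def sz (m : Fin 2 → ℤ) : ℕ := (m 0).natAbs + (m 1).natAbs

theorem gg_le {P : PDiv X} {S A : Cart X} {b : Fin 2 → Cart X} {C : ℕ} (h : BD P S A b C)
    (m : Fin 2 → ℤ) (n i : ℕ) (hn : 1 ≤ n * sz m + i) :
    gg S ((b 0 ^ m 0 * b 1 ^ m 1) ^ n * S⁻¹ ^ i) ≤ 8 * (C : ℤ) * ((n * sz m + i : ℕ) : ℤ) ^ 2 := by
  obtain ⟨M, hM⟩ : ∃ M : Cart X, M = (A ^ (m 0).natAbs * (b 0 ^ m 0)⁻¹ *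
      (A ^ (m 1).natAbs * (b 1 ^ m 1)⁻¹)) ^ n * (A * S) ^ i := ⟨_, rfl⟩
  have hMu : UnAt P.η M := by
    rw [hM]
    exact unAt_mul (unAt_pow (unAt_mul (unAt_zpow A _ (h.ab 0) (h.ab' 0) _)
      (unAt_zpow A _ (h.ab 1) (h.ab' 1) _)) n) (unAt_pow h.aS i)
  have h1 : (b 0 ^ m 0 * b 1 ^ m 1) ^ n * S⁻¹ ^ i * M = A ^ (n * sz m + i) := by
    have h2 : A ^ (m 0).natAbs * (b 0 ^ m 0)⁻¹ * (A ^ (m 1).natAbs * (b 1 ^ m 1)⁻¹) =
        A ^ sz m * (b 0 ^ m 0 * b 1 ^ m 1)⁻¹ := by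
      unfold sz
      rw [pow_add, mul_inv]
      simp only [mul_assoc, mul_comm, mul_left_comm]
    obtain ⟨D, hD⟩ : ∃ D : Cart X, D = b 0 ^ m 0 * b 1 ^ m 1 := ⟨_, rfl⟩
    rw [← hD] at h2
    rw [hM, h2, ← hD, pow_add, mul_comm n, pow_mul, mul_pow, mul_pow, inv_pow, inv_pow]
    calc D ^ n * (S ^ i)⁻¹ * ((A ^ sz m) ^ n * (D ^ n)⁻¹ * (A ^ i * S ^ i)) =
        (A ^ sz m) ^ n * A ^ i * (D ^ n * (D ^ n)⁻¹) * (S ^ i * (S ^ i)⁻¹) := by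
          simp only [mul_assoc, mul_comm, mul_left_comm]
      _ = (A ^ sz m) ^ n * A ^ i := by rw [mul_inv_cancel, mul_inv_cancel, mul_one, mul_one]
  refine (gg_mono h.ps h.fin _ M hMu).trans ?_
  rw [h1]
  exact gg_growth' h.ps h.fin A h.a h.aS' C h.gr _ hn

/-- the bound for the dimension of the space of the sections of `n D` -/
theorem h0_le {P : PDiv X} {S A : Cart X} {b : Fin 2 → Cart X} {C : ℕ} (h : BD P S A b C)
    (m : Fin 2 → ℤ) (hm : 1 ≤ sz m) (n I : ℕ) (hn : 1 ≤ n)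
    (hI : hh ((b 0 ^ m 0 * b 1 ^ m 1) ^ n * S⁻¹ ^ I) = 0) :
    (h0 (b 0 ^ m 0 * b 1 ^ m 1) n : ℤ) ≤ (I : ℤ) * (8 * (C : ℤ) * ((n * sz m + I : ℕ) : ℤ) ^ 2) := by
  have h1 := tele S ((b 0 ^ m 0 * b 1 ^ m 1) ^ n) I
  rw [hI, sub_zero] at h1
  rw [hh_pow, h1]
  have h2 : ∀ i ∈ Finset.range I, gg S ((b 0 ^ m 0 * b 1 ^ m 1) ^ n * S⁻¹ ^ i) ≤
      8 * (C : ℤ) * ((n * sz m + I : ℕ) : ℤ) ^ 2 := by
    intro i hi
    have hiI : i < I := Finset.mem_range.1 hi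
    have h3 : 1 ≤ n * sz m := Nat.mul_pos hn hm
    refine (gg_le h m n i (by omega)).trans ?_
    have h4 : ((n * sz m + i : ℕ) : ℤ) ≤ ((n * sz m + I : ℕ) : ℤ) := by
      exact_mod_cast Nat.add_le_add_left hiI.le _
    have h5 : ((n * sz m + i : ℕ) : ℤ) ^ 2 ≤ ((n * sz m + I : ℕ) : ℤ) ^ 2 :=
      pow_le_pow_left₀ (Int.natCast_nonneg _) h4 2
    exact mul_le_mul_of_nonneg_left h5 (by positivity)
  refine (Finset.sum_le_sum h2).trans (le_of_eq ?_)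
  rw [Finset.sum_const, Finset.card_range, nsmul_eq_mul]

end Pool.Agent.H36.TU
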